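import Mathlib

open MeasureTheory Set Real

namespace Run7.h712.KC

theorem t_UP (p : ℝ) (hp : 0 < p) :
    ∫⁻ z in Metric.ball (0:ℂ) 1, ‖z‖ₑ ^ p = ENNReal.ofReal (2 * Real.pi / (p + 2)) := by
  rw [← lintegral_indicator Metric.isOpen_ball.measurableSet, ← Complex.lintegral_comp_polarCoord_symm]
  have e : ∀ q ∈ polarCoord.target, ENNReal.ofReal q.1 •
      (Metric.ball (0:ℂ) 1).indicator (fun z : ℂ => ‖z‖ₑ ^ p) (Complex.polarCoord.symm q) =
      (Ioo (0:ℝ) 1 ×ˢ Ioo (-π) π).indicator (fun q : ℝ × ℝ => ENNReal.ofReal (q.1 ^ (p + 1))) q := by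
    rintro ⟨r, θ⟩ hq
    rw [polarCoord_target] at hq
    obtain ⟨hr, hθ⟩ := hq
    have hr0 : 0 < r := hr
    have hn : ‖Complex.polarCoord.symm (r, θ)‖ = r := by
      rw [Complex.norm_polarCoord_symm, abs_of_pos hr0]
    by_cases h1 : r < 1
    · rw [indicator_of_mem (by rw [Metric.mem_ball, dist_zero_right, hn]; exact h1),
        indicator_of_mem (show (r, θ) ∈ Ioo (0:ℝ) 1 ×ˢ Ioo (-π) π from ⟨⟨hr0, h1⟩, hθ⟩)]
      rw [← ofReal_norm, hn, ENNReal.ofReal_rpow_of_pos hr0, smul_eq_mul,
        ← ENNReal.ofReal_mul hr0.le]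
      congr 1
      rw [Real.rpow_add hr0, Real.rpow_one, mul_comm]
    · rw [indicator_of_notMem (by rw [Metric.mem_ball, dist_zero_right, hn]; exact h1),
        indicator_of_notMem (fun h : (r, θ) ∈ Ioo (0:ℝ) 1 ×ˢ Ioo (-π) π => h1 h.1.2), smul_zero]
  rw [setLIntegral_congr_fun polarCoord.open_target.measurableSet e,
    setLIntegral_indicator (measurableSet_Ioo.prod measurableSet_Ioo)]
  have e2 : (Ioo (0:ℝ) 1 ×ˢ Ioo (-π) π) ∩ polarCoord.target = Ioo (0:ℝ) 1 ×ˢ Ioo (-π) π := by
    rw [polarCoord_target]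
    apply inter_eq_left.2
    exact prod_mono (fun x hx => hx.1) subset_rfl
  rw [e2, Measure.volume_eq_prod, ← Measure.prod_restrict, lintegral_prod]
  · simp only [lintegral_const, Measure.restrict_apply MeasurableSet.univ, univ_inter, Real.volume_Ioo]
    rw [lintegral_mul_const' _ _ ENNReal.ofReal_ne_top]
    rw [← ofReal_integral_eq_lintegral_ofReal]
    · rw [← integral_Ioc_eq_integral_Ioo, ← intervalIntegral.integral_of_le zero_le_one,
        integral_rpow (Or.inl (by linarith))]
      rw [Real.one_rpow, Real.zero_rpow (by linarith), ← ENNReal.ofReal_mul (by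
        apply div_nonneg <;> linarith)]
      congr 1
      have : p + 1 + 1 ≠ 0 := by linarith
      have : p + 2 ≠ 0 := by linarith
      field_simp
      ring
    · rw [← IntegrableOn, ← integrableOn_Ioc_iff_integrableOn_Ioo, ← intervalIntegrable_iff_integrableOn_Ioc_of_le zero_le_one]
      exact intervalIntegral.intervalIntegrable_rpow' (by linarith)
    · refine (ae_restrict_iff' measurableSet_Ioo).2 (Filter.Eventually.of_forall fun x hx => ?_)
      exact Real.rpow_nonneg hx.1.le _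
  · fun_prop

end Run7.h712.KC
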